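import Pool.Agent.Helper74.NM.St

set_option autoImplicit false

namespace Pool.Agent.Helper39.NM

open Pool.Agent.Helper74 Pool.Agent.Helper74.NM

section

variable {W : Type} (rk : W → Bool)

theorem dab_closed (y : Lt W) : ∀ (w : List (Lt W)), (∀ a ∈ w, ¬ op a) →
    ∀ σ, Dead (P rk) op y w σ := by
  intro w
  induction w with
  | nil => intro _ σ; exact dead_nil _ _ _ _
  | cons a w ih =>
    intro h σ
    rw [dead_cons]
    have h1 : ¬ op a := h a (by simp)
    refine ⟨fun _ hp => h1 (p_op rk _ _ hp), fun ho => absurd ho h1, fun x σ' _ _ => ?_⟩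
    exact ih (fun b hb => h b (by simp [hb])) σ'

theorem dab_short (y a : Lt W) (ha : ¬ op a) : ∀ (w : List (Lt W)) (σ : List (Lt W)),
    w.length ≤ σ.length → Dead (P rk) op y (w ++ [a]) σ := by
  intro w
  induction w with
  | nil =>
    intro σ _
    exact dab_closed rk y [a] (by simpa using ha) σ
  | cons b w ih =>
    intro σ h
    rw [List.cons_append, dead_cons]
    refine ⟨?_, ?_, ?_⟩
    · rintro rfl
      simp at h
    · intro _
      apply ih
      simp only [List.length_cons] at h ⊢
      omega
    · rintro x σ' rfl _
      apply ih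
      simp only [List.length_cons] at h
      omega

theorem dab_o (y : Lt W) : ∀ (l : List (Zt W)) (σ : List (Lt W)),
    (σ = [] → ∀ z, l.head? = some z → ¬ P rk (.o z) y) →
    Dead (P rk) op y (l.map .o) σ := by
  intro l
  induction l with
  | nil => intro σ _; exact dead_nil _ _ _ _
  | cons z l ih =>
    intro σ h
    rw [List.map_cons, dead_cons]
    refine ⟨fun hσ => h hσ z rfl, fun _ => ?_, fun x σ' _ hx => absurd hx (not_p_o rk x z)⟩
    exact ih _ (fun e => absurd e (by simp))

theorem dab_tr : ∀ (l : List (Zt W)) (σ τ : List (Lt W)),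
    Tr (P rk) op (l.map .o) σ τ → τ.length = l.length + σ.length := by
  intro l
  induction l with
  | nil =>
    intro σ τ h
    have h' : σ = τ := h
    simp [h']
  | cons z l ih =>
    intro σ τ h
    rw [List.map_cons, tr_cons] at h
    rcases h with ⟨_, h⟩ | ⟨x, σ', _, hx, _⟩
    · have := ih _ _ h
      simp only [List.length_cons] at this ⊢
      omega
    · exact absurd hx (not_p_o rk x z)

end

theorem hDAB : StDAB := by
  intro W rk y g σ
  constructor
  · intro h
    have hc : ∀ τ, Dead (P rk) op y [.k (.b false), .k (.s g.1), .k (.c (rk g.1))] τ := by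
      intro τ
      apply dab_closed
      intro a ha
      simp only [List.mem_cons, List.not_mem_nil, or_false] at ha
      rcases ha with rfl | rfl | rfl <;> exact fun h => h
    unfold gA
    rw [dead_cons]
    refine ⟨h, fun _ => ?_, fun x σ' _ hx => absurd hx (not_p_x rk x g)⟩
    rw [dead_cons]
    refine ⟨fun e => absurd e (by simp), fun _ => ?_, fun x σ' _ hx => absurd hx (not_p_f1 rk x g)⟩
    have key : ∀ (a : Lt W) (τ : List (Lt W)), Dead (P rk) op y
        [.f3 g, .k (.b false), .k (.s g.1), .k (.c (rk g.1))] (a :: τ) := by
      intro a τ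
      rw [dead_cons]
      exact ⟨fun e => absurd e (by simp), fun _ => hc _, fun x σ' _ _ => hc _⟩
    rw [dead_cons]
    refine ⟨fun e => absurd e (by simp), fun _ => key _ _, ?_⟩
    intro x σ' e _
    simp only [List.cons.injEq] at e
    rw [← e.2]
    exact key _ _
  · intro h
    unfold gB
    rw [dead_append]
    constructor
    · apply dab_o
      intro hσ z hz
      apply h hσ z
      rw [List.head?_reverse] at hz
      exact hz
    · intro τ hτ
      have h1 := dab_tr rk _ _ _ hτ
      apply dab_short
      · exact fun h => h
      · simp only [List.length_map, List.length_range, List.length_reverse] at h1 ⊢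
        omega

end Pool.Agent.Helper39.NM

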